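import Pool.Agent.H32.N6H.Targets
import Pool.Agent.H32.N6V.NF2

/-!
# The common eigenbasis over an algebraically closed field (row EIG)
-/

set_option autoImplicit false

open Polynomial Matrix

namespace Pool.Agent.H54.N6H

open Pool.Agent.H32.N6H

lemma det_ne_of_sd {F : Type} [Field F] {n : ℕ} {A B : Matrix (Fin n) (Fin n) F}
    (h : SD A B) : B.det ≠ 0 := by
  intro h0
  have h1 : pen A B = (X : F[X]) • (-B).map C + A.map C := by
    ext i j
    simp [pen]
    ring
  have h2 := coeff_det_X_add_C_card (-B) A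
  rw [← h1, Matrix.det_neg, h0, mul_zero, Fintype.card_fin] at h2
  have h3 : (pen A B).det.leadingCoeff = 0 := by
    rw [leadingCoeff, h.deg, h2]
  rw [leadingCoeff_eq_zero] at h3
  have h4 := h.deg
  rw [h3, natDegree_zero] at h4
  subst h4
  rw [Matrix.det_fin_zero] at h0
  exact one_ne_zero h0

lemma sym_dot {F : Type} [Field F] {n : ℕ} {A : Matrix (Fin n) (Fin n) F} (h : A.IsSymm)
    (x y : Fin n → F) : x ⬝ᵥ (A *ᵥ y) = y ⬝ᵥ (A *ᵥ x) := by
  rw [dotProduct_mulVec, dotProduct_comm]
  congr 1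
  rw [← mulVec_transpose, h.eq]

theorem pf_EIG : T_EIG := by
  classical
  intro E _ _ n A B hSD
  have hB := det_ne_of_sd hSD
  have hsep : (B⁻¹ * A).charpoly.Separable := Pool.Agent.H32.N6V.char_sep hB hSD.sep
  set T := B⁻¹ * A with hT
  have hBT : B * T = A := by
    rw [hT, Matrix.mul_nonsing_inv_cancel_left _ _ (isUnit_iff_ne_zero.2 hB)]
  have hcard : T.charpoly.roots.toFinset.card = n := by
    rw [Multiset.toFinset_card_of_nodup (nodup_roots hsep),
      ← (IsAlgClosed.splits T.charpoly).natDegree_eq_card_roots,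
      Matrix.charpoly_natDegree_eq_dim, Fintype.card_fin]
  set e := (Finset.equivFinOfCardEq hcard).symm with he
  set t : Fin n → E := fun i => (e i).1 with ht
  have htinj : Function.Injective t := fun i j hij => e.injective (Subtype.ext hij)
  have htr : ∀ i, (T.charpoly).IsRoot (t i) := by
    intro i
    have h := (e i).2
    rw [Multiset.mem_toFinset] at h
    exact isRoot_of_mem_roots h
  have hk : ∀ i, ∃ v : Fin n → E, v ≠ 0 ∧ T *ᵥ v = t i • v := by
    intro i
    have h1 := htr i
    rw [IsRoot.def, Matrix.eval_charpoly] at h1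
    obtain ⟨v, hv0, hv⟩ := Matrix.exists_mulVec_eq_zero_iff.2 h1
    refine ⟨v, hv0, ?_⟩
    rw [Matrix.sub_mulVec, sub_eq_zero] at hv
    rw [← hv]
    funext j
    simp [Matrix.scalar_apply, Matrix.mulVec_diagonal]
  choose k hk0 hkT using hk
  have hA : ∀ i, A *ᵥ k i = t i • (B *ᵥ k i) := by
    intro i
    rw [← hBT, ← Matrix.mulVec_mulVec, hkT, Matrix.mulVec_smul]
  have hlin : LinearIndependent E k := by
    refine Module.End.eigenvectors_linearIndependent' (Matrix.mulVecLin T) t htinj k fun i => ?_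
    refine ⟨?_, hk0 i⟩
    rw [Module.End.mem_eigenspace_iff, Matrix.mulVecLin_apply]
    exact hkT i
  have horth : ∀ i j, i ≠ j → k i ⬝ᵥ (B *ᵥ k j) = 0 := by
    intro i j hij
    have h1 : k i ⬝ᵥ (A *ᵥ k j) = t j * (k i ⬝ᵥ (B *ᵥ k j)) := by
      rw [hA, dotProduct_smul, smul_eq_mul]
    have h2 : k i ⬝ᵥ (A *ᵥ k j) = t i * (k i ⬝ᵥ (B *ᵥ k j)) := by
      rw [sym_dot hSD.sA, hA, dotProduct_smul, smul_eq_mul, sym_dot hSD.sB]
    have h3 : (t i - t j) * (k i ⬝ᵥ (B *ᵥ k j)) = 0 := by
      rw [sub_mul, ← h1, ← h2, sub_self]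
    rcases mul_eq_zero.1 h3 with h | h
    · exact absurd (htinj (sub_eq_zero.1 h)) hij
    · exact h
  refine ⟨t, k, htinj, hA, horth, fun i hi => ?_, hlin⟩
  have hspan := hlin.span_eq_top_of_card_eq_finrank' (by simp)
  have h0 : ∀ x : Fin n → E, x ⬝ᵥ (B *ᵥ k i) = 0 := by
    intro x
    have hx : x ∈ Submodule.span E (Set.range k) := by
      rw [hspan]
      trivial
    induction hx using Submodule.span_induction with
    | mem x h =>
      obtain ⟨j, rfl⟩ := h
      by_cases hji : j = i
      · rw [hji]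
        exact hi
      · exact horth j i hji
    | zero => simp
    | add x y _ _ hx hy => rw [add_dotProduct, hx, hy, add_zero]
    | smul a x _ hx => rw [smul_dotProduct, hx, smul_zero]
  have h1 : B *ᵥ k i = 0 := by
    funext j
    have h := h0 (Pi.single j 1)
    rw [single_one_dotProduct] at h
    exact h
  apply hk0 i
  exact Matrix.eq_zero_of_mulVec_eq_zero hB h1

end Pool.Agent.H54.N6H
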