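import Pool.Agent.H32.N6H.Targets

/-!
# On a line of hyperplanes almost all are good if one is (row LIN)
-/

set_option autoImplicit false

open Polynomial Matrix

namespace Pool.Agent.H54.N6H

open Pool.Agent.H32.N6H

section

variable {F : Type} [Field F]

lemma natDegree_adj (n : ℕ) (A B : Matrix (Fin (n + 1)) (Fin (n + 1)) F) (i j : Fin (n + 1)) :
    ((pen A B).adjugate i j).natDegree ≤ n := by
  rw [Matrix.adjugate_fin_succ_eq_det_submatrix]
  have h1 : ((-1 : F[X]) ^ (j + i : ℕ)).natDegree = 0 := by
    rcases neg_one_pow_eq_or F[X] (j + i : ℕ) with h | h <;> rw [h] <;> simp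
  have h2 : ((pen A B).submatrix j.succAbove i.succAbove) =
      (X : F[X]) • (-(B.submatrix j.succAbove i.succAbove)).map C +
        (A.submatrix j.succAbove i.succAbove).map C := by
    ext a b
    simp [pen]
    ring
  have h3 := natDegree_det_X_add_C_le (-(B.submatrix j.succAbove i.succAbove))
    (A.submatrix j.succAbove i.succAbove)
  rw [Fintype.card_fin] at h3
  rw [h2]
  exact natDegree_mul_le.trans (by omega)

/-- the bilinear form -/
noncomputable def bl {n : ℕ} (A B : Matrix (Fin (n + 1)) (Fin (n + 1)) F)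
    (l m : Fin (n + 1) → F) : F[X] := cc l ⬝ᵥ ((pen A B).adjugate *ᵥ cc m)

lemma natDegree_bl {n : ℕ} (A B : Matrix (Fin (n + 1)) (Fin (n + 1)) F)
    (l m : Fin (n + 1) → F) : (bl A B l m).natDegree ≤ n := by
  unfold bl dotProduct
  refine natDegree_sum_le_of_forall_le _ _ fun i _ => ?_
  unfold cc mulVec dotProduct
  refine (natDegree_C_mul_le _ _).trans ?_
  refine natDegree_sum_le_of_forall_le _ _ fun j _ => ?_
  exact (natDegree_mul_C_le _ _).trans (natDegree_adj n A B i j)

lemma pl_line {n : ℕ} (A B : Matrix (Fin (n + 1)) (Fin (n + 1)) F)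
    (l m : Fin (n + 1) → F) (s : F) : pl A B (l + s • m) =
      bl A B l l + C s * (bl A B l m + bl A B m l) + C (s ^ 2) * bl A B m m := by
  have h : cc (l + s • m) = cc l + (C s : F[X]) • cc m := by
    funext i
    simp [cc]
  unfold pl bl
  rw [h]
  simp only [mulVec_add, mulVec_smul, dotProduct_add, add_dotProduct, smul_dotProduct,
    dotProduct_smul, smul_eq_mul, C_pow]
  ring

lemma natDegree_pl {n : ℕ} (A B : Matrix (Fin (n + 1)) (Fin (n + 1)) F)
    (l : Fin (n + 1) → F) : (pl A B l).natDegree ≤ n := natDegree_bl A B l l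

/-- the polynomial over the polynomials in `s` -/
noncomputable def Pi {n : ℕ} (A B : Matrix (Fin (n + 1)) (Fin (n + 1)) F)
    (l m : Fin (n + 1) → F) : F[X][X] :=
  (bl A B l l).map C + C X * (bl A B l m + bl A B m l).map C + C (X ^ 2) * (bl A B m m).map C

lemma map_eval_C (p : F[X]) (s : F) : (p.map (C : F →+* F[X])).map (evalRingHom s) = p := by
  rw [Polynomial.map_map]
  have h : (evalRingHom s).comp (C : F →+* F[X]) = RingHom.id F := by
    ext x
    simp
  rw [h, Polynomial.map_id]

lemma map_Pi {n : ℕ} (A B : Matrix (Fin (n + 1)) (Fin (n + 1)) F)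
    (l m : Fin (n + 1) → F) (s : F) :
    (Pi A B l m).map (evalRingHom s) = pl A B (l + s • m) := by
  rw [pl_line]
  unfold Pi
  simp only [Polynomial.map_add, Polynomial.map_mul, map_eval_C, map_C, coe_evalRingHom, eval_X,
    eval_pow]

lemma gd_iff [CharZero F] {n : ℕ} (A B : Matrix (Fin (n + 1)) (Fin (n + 1)) F)
    (l m : Fin (n + 1) → F) (s : F) : Gd A B (l + s • m) ↔
      eval s ((Pi A B l m).coeff n *
        resultant (Pi A B l m) (derivative (Pi A B l m)) n (n - 1)) ≠ 0 := by
  have hp := map_Pi A B l m s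
  set p := pl A B (l + s • m) with hpd
  have hdeg : p.natDegree ≤ n := natDegree_pl A B _
  have hc : eval s ((Pi A B l m).coeff n) = p.coeff n := by
    rw [← hp, coeff_map]
    rfl
  have hr : eval s (resultant (Pi A B l m) (derivative (Pi A B l m)) n (n - 1)) =
      resultant p (derivative p) n (n - 1) := by
    rw [← hp, derivative_map, resultant_map_map]
    rfl
  rw [eval_mul, hc, hr, mul_ne_zero_iff]
  constructor
  · rintro ⟨h1, h2⟩
    have h2' : p.natDegree = n := h2
    have hp0 : p ≠ 0 := h1.ne_zero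
    refine ⟨?_, ?_⟩
    · rw [← h2']
      exact leadingCoeff_ne_zero.2 hp0
    · have h3 : (derivative p).natDegree = n - 1 := by
        rw [natDegree_derivative, h2']
      intro h4
      have h5 : resultant p (derivative p) = 0 := by
        rw [h2', h3]
        exact h4
      exact (resultant_eq_zero_iff.1 h5).2 h1
  · rintro ⟨h1, h2⟩
    have h3 : p.natDegree = n := le_antisymm hdeg (le_natDegree_of_ne_zero h1)
    have hp0 : p ≠ 0 := by
      rintro h
      rw [h, coeff_zero] at h1
      exact h1 rfl
    refine ⟨?_, h3⟩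
    by_contra h4
    apply h2
    have h5 : (derivative p).natDegree = n - 1 := by
      rw [natDegree_derivative, h3]
    have h6 : resultant p (derivative p) = 0 := resultant_eq_zero_iff.2 ⟨Or.inl hp0, h4⟩
    rw [h3, h5] at h6
    exact h6

end

theorem pf_LIN : T_LIN := by
  intro F _ _ n A B l m s0 h0
  rw [gd_iff] at h0
  set T := (Pi A B l m).coeff n *
    resultant (Pi A B l m) (derivative (Pi A B l m)) n (n - 1) with hT
  have hT0 : T ≠ 0 := by
    intro h
    rw [h, eval_zero] at h0
    exact h0 rfl
  refine (finite_setOfPred_isRoot hT0).subset fun s hs => ?_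
  by_contra h
  exact hs ((gd_iff A B l m s).2 h)

end Pool.Agent.H54.N6H
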